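import Pool.Agent.H20.DG.Jet
import Pool.Agent.H20.CI.Cur
import Pool.Graph.R_pool_sql_team_seeded_35f281b4.K7.H11.LM.Block

/-! Arrangements of hyperplanes such that the curves along which their equations are `m`-th powers
are constant. -/

set_option autoImplicit false

namespace Pool.Agent.H20.DG

open MvPolynomial
open Pool.Agent.K7.H11.GG
open Pool.Agent.K7.H11.LM

/-- The curves along which the linear forms `B j` are `m`-th powers are constant. -/
def PH {κ J : Type} [Fintype κ] (m : ℕ) (B : J → κ → ℂ) : Prop :=
  ∀ (x : ℂ → κ → ℂ) (y : J → ℂ → ℂ), (∀ a, Differentiable ℂ fun z => x z a) →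
    (∀ j, Differentiable ℂ (y j)) → (∀ j z, y j z ^ m = ∑ a, B j a * x z a) →
    ∀ z w a b, x z a * x w b = x z b * x w a

/-- The forms have no common zero. -/
def Inj {κ J : Type} [Fintype κ] (B : J → κ → ℂ) : Prop :=
  ∀ x : κ → ℂ, (∀ j, ∑ a, B j a * x a = 0) → x = 0

/-- the arrangement in the line -/
noncomputable def lineArr (b m : ℕ) : Option (Option (Fin b)) → Fin 2 → ℂ
  | none => ![1, 0]
  | some none => ![0, 1]
  | some (some l) => ![1, -(tt l) ^ m]

lemma line_inj (b m : ℕ) : Inj (lineArr b m) := by
  intro x hx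
  have h1 := hx none
  have h2 := hx (some none)
  simp only [lineArr, Fin.sum_univ_two, Matrix.cons_val_zero, Matrix.cons_val_one, one_mul,
    zero_mul, add_zero, zero_add] at h1 h2
  funext a
  fin_cases a
  · exact h1
  · exact h2

theorem line_PH (b m : ℕ) (hb : 3 ≤ b * (m - 1)) : PH m (lineArr b m) := by
  intro x y hx hy h z w
  have hm : 1 ≤ m := by
    by_contra h0
    have : m = 0 := by omega
    rw [this] at hb
    simp at hb
  have h1 : ∀ z, y none z ^ m = x z 0 := by
    intro z
    have := h none z
    simpa [lineArr, Fin.sum_univ_two] using this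
  have h2 : ∀ z, y (some none) z ^ m = x z 1 := by
    intro z
    have := h (some none) z
    simpa [lineArr, Fin.sum_univ_two] using this
  have hblock := block (r := b) (J := Finset.univ) (d := fun _ => m) (fun _ _ => hm)
    (by rw [Finset.sum_const, Finset.card_univ, Fintype.card_fin, smul_eq_mul]; exact hb)
    (hy none) (hy (some none)) (y := fun l => y (some (some l))) (fun l => hy _)
    (fun l _ z => by
      have h3 := h (some (some l)) z
      rw [h3]
      simp only [lineArr, Fin.sum_univ_two, Matrix.cons_val_zero, Matrix.cons_val_one, one_mul]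
      rw [mul_pow, h1, h2]
      ring)
  have h3 : ∀ z w, x z 0 * x w 1 = x w 0 * x z 1 := by
    intro z w
    rw [← h1, ← h2, ← h1, ← h2, ← mul_pow, ← mul_pow, hblock z w]
  intro a c
  fin_cases a <;> fin_cases c
  · rfl
  · change x z 0 * x w 1 = x z 1 * x w 0
    rw [h3 z w]; ring
  · change x z 1 * x w 0 = x z 0 * x w 1
    rw [h3 z w]; ring
  · rfl

/-- the diagonal equations -/
noncomputable def diag {Q r : ℕ} (m : ℕ) (C : Matrix (Fin r) (Fin Q) ℂ) (l : Fin r) :
    MvPolynomial (Fin Q) ℂ := ∑ j, MvPolynomial.C (C l j) * X j ^ m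

lemma eval_diag {Q r : ℕ} (m : ℕ) (C : Matrix (Fin r) (Fin Q) ℂ) (l : Fin r) (y : Fin Q → ℂ) :
    eval y (diag m C l) = ∑ j, C l j * y j ^ m := by
  unfold diag
  rw [map_sum]
  refine Finset.sum_congr rfl fun j _ => ?_
  rw [map_mul, eval_C, map_pow, eval_X]

lemma hom_diag {Q r : ℕ} (m : ℕ) (C : Matrix (Fin r) (Fin Q) ℂ) (l : Fin r) :
    (diag m C l).IsHomogeneous m := by
  unfold diag
  refine IsHomogeneous.sum _ _ _ fun j _ => ?_
  have h1 := (isHomogeneous_C (Fin Q) (C l j)).mul ((isHomogeneous_X ℂ j).pow m)
  simpa using h1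

/-- the arrangement of a diagonal complete intersection -/
theorem arr_of_diag {k c m : ℕ} (C : Matrix (Fin c) (Fin (k + c + 1)) ℂ)
    (hC : LinearIndependent ℂ C) (hB : Brody (diag m C)) :
    ∃ B : Fin (k + c + 1) → Fin (k + 1) → ℂ, PH m B ∧ Inj B := by
  classical
  have hrank : Module.finrank ℂ (LinearMap.range C.mulVecLin) = c := by
    have h1 : C.rank = c := by
      have := hC.rank_matrix
      rwa [Fintype.card_fin] at this
    exact h1
  have hker : Module.finrank ℂ (LinearMap.ker C.mulVecLin) = k + 1 := by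
    have h1 := LinearMap.finrank_range_add_finrank_ker C.mulVecLin
    rw [hrank, Module.finrank_fin_fun] at h1
    omega
  let bas := Module.finBasisOfFinrankEq ℂ (LinearMap.ker C.mulVecLin) hker
  refine ⟨fun j a => (bas a : Fin (k + c + 1) → ℂ) j, ?_, ?_⟩
  · have hInj : ∀ x : Fin (k + 1) → ℂ,
        (∀ j, ∑ a, (bas a : Fin (k + c + 1) → ℂ) j * x a = 0) → x = 0 := by
      intro x hx
      have h1 : ∑ a, x a • bas a = 0 := by
        apply Subtype.ext
        funext j
        have h2 := hx j
        rw [Submodule.coe_sum, Finset.sum_apply]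
        simp only [Submodule.coe_smul, Pi.smul_apply, smul_eq_mul, Submodule.coe_zero,
          Pi.zero_apply]
        rw [← h2]
        exact Finset.sum_congr rfl fun a _ => mul_comm _ _
      funext a
      exact Fintype.linearIndependent_iff.1 bas.linearIndependent x h1 a
    intro x y hx hy h z w
    have hker : ∀ z l, ∑ j, C l j * y j z ^ m = 0 := by
      intro z l
      have h1 : ∀ j, C l j * y j z ^ m =
          ∑ a, x z a * (C l j * (bas a : Fin (k + c + 1) → ℂ) j) := by
        intro j
        rw [h j z, Finset.mul_sum]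
        exact Finset.sum_congr rfl fun a _ => by ring
      rw [Finset.sum_congr rfl fun j _ => h1 j, Finset.sum_comm]
      refine Finset.sum_eq_zero fun a _ => ?_
      rw [← Finset.mul_sum]
      have h2 : C.mulVec (bas a : Fin (k + c + 1) → ℂ) = 0 := (bas a).2
      have h3 := congrFun h2 l
      rw [Matrix.mulVec, dotProduct] at h3
      rw [h3, Pi.zero_apply, mul_zero]
    obtain ⟨g, α, β, h1, h2, -⟩ := Pool.Agent.H20.CI.cone_curve (diag m C)
      (fun l => ⟨m, hom_diag m C l⟩) hB (fun z j => y j z)
      (by rw [differentiable_pi]; exact hy) (fun z l => by rw [eval_diag]; exact hker z l) z w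
    have h3 : ∀ j, ∑ a, (bas a : Fin (k + c + 1) → ℂ) j * x z a = α ^ m * g j ^ m := by
      intro j
      have h5 : y j z = α * g j := congrFun h1 j
      rw [← h j z, h5, mul_pow]
    have h4 : ∀ j, ∑ a, (bas a : Fin (k + c + 1) → ℂ) j * x w a = β ^ m * g j ^ m := by
      intro j
      have h5 : y j w = β * g j := congrFun h2 j
      rw [← h j w, h5, mul_pow]
    have h5 : ∀ a, β ^ m * x z a - α ^ m * x w a = 0 := by
      intro a
      have h6 := hInj (fun a => β ^ m * x z a - α ^ m * x w a) (fun j => by
        have : ∀ a, (bas a : Fin (k + c + 1) → ℂ) j * (β ^ m * x z a - α ^ m * x w a) =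
            β ^ m * ((bas a : Fin (k + c + 1) → ℂ) j * x z a) -
            α ^ m * ((bas a : Fin (k + c + 1) → ℂ) j * x w a) := fun a => by ring
        rw [Finset.sum_congr rfl fun a _ => this a, Finset.sum_sub_distrib, ← Finset.mul_sum,
          ← Finset.mul_sum, h3, h4]
        ring)
      exact congrFun h6 a
    intro a b
    by_cases hβ : β ^ m = 0
    · have h6 : (fun a => x w a) = 0 := hInj _ (fun j => by rw [h4, hβ, zero_mul])
      have h7 : ∀ a, x w a = 0 := fun a => congrFun h6 a
      rw [h7, h7, mul_zero, mul_zero]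
    · apply mul_left_cancel₀ hβ
      linear_combination x w b * h5 a - x w a * h5 b
  · intro x hx
    have h1 : ∑ a, x a • bas a = 0 := by
      apply Subtype.ext
      funext j
      have h2 := hx j
      rw [Submodule.coe_sum, Finset.sum_apply]
      simp only [Submodule.coe_smul, Pi.smul_apply, smul_eq_mul, Submodule.coe_zero,
        Pi.zero_apply]
      rw [← h2]
      exact Finset.sum_congr rfl fun a _ => mul_comm _ _
    funext a
    exact Fintype.linearIndependent_iff.1 bas.linearIndependent x h1 a

end Pool.Agent.H20.DG
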