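import Pool.Agent.H20.DG.Uni

/-! Hyperbolic diagonal complete intersections. -/

set_option autoImplicit false

namespace Pool.Agent.H20.DG

open MvPolynomial
open Pool.Agent.K7.H11.GG
open Pool.Agent.K7.H11.LM

/-- the equations of the diagonal complete intersection of an arrangement -/
theorem diag_of_arr {n r m Q : ℕ} (hm : 1 ≤ m) (hQ : n + 1 + r = Q + 1)
    (B : Fin (Q + 1) → Fin (n + 1) → ℂ) (hPH : PH m B) (hInj : Inj B) :
    ∃ C : Matrix (Fin r) (Fin (Q + 1)) ℂ, Brody (diag m C) := by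
  classical
  -- the map of the arrangement
  obtain ⟨Λ, hΛ⟩ : ∃ Λ : (Fin (n + 1) → ℂ) →ₗ[ℂ] (Fin (Q + 1) → ℂ),
      ∀ x j, Λ x j = ∑ a, B j a * x a :=
    ⟨Matrix.mulVecLin (Matrix.of B), fun x j => rfl⟩
  have hΛi : Function.Injective Λ := by
    rw [injective_iff_map_eq_zero]
    intro x hx
    exact hInj x fun j => by rw [← hΛ, hx]; rfl
  have hfr : Module.finrank ℂ (LinearMap.range Λ) = n + 1 := by
    rw [LinearMap.finrank_range_of_inj hΛi, Module.finrank_fin_fun]
  have hfq : Module.finrank ℂ ((Fin (Q + 1) → ℂ) ⧸ LinearMap.range Λ) = r := by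
    have h1 := Submodule.finrank_quotient_add_finrank (LinearMap.range Λ)
    rw [hfr, Module.finrank_fin_fun] at h1
    omega
  let bas := Module.finBasisOfFinrankEq ℂ ((Fin (Q + 1) → ℂ) ⧸ LinearMap.range Λ) hfq
  let Ψ : (Fin (Q + 1) → ℂ) →ₗ[ℂ] (Fin r → ℂ) :=
    bas.equivFun.toLinearMap ∘ₗ (LinearMap.range Λ).mkQ
  have hker : ∀ v, Ψ v = 0 ↔ v ∈ LinearMap.range Λ := by
    intro v
    change bas.equivFun ((LinearMap.range Λ).mkQ v) = 0 ↔ _
    rw [LinearEquiv.map_eq_zero_iff, Submodule.mkQ_apply, Submodule.Quotient.mk_eq_zero]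
  obtain ⟨Λ', hΛ'⟩ := LinearMap.exists_leftInverse_of_injective Λ (LinearMap.ker_eq_bot.2 hΛi)
  refine ⟨LinearMap.toMatrix' Ψ, ?_⟩
  have hC : ∀ (v : Fin (Q + 1) → ℂ) l, ∑ j, LinearMap.toMatrix' Ψ l j * v j = Ψ v l := by
    intro v l
    have h1 := LinearMap.toMatrix'_mulVec Ψ v
    exact congrFun h1 l
  intro y hy hy0 hyD z w
  have hyj : ∀ j, Differentiable ℂ fun z => y z j := fun j => differentiable_pi.1 hy j
  -- the curve in the space
  set X : ℂ → Fin (n + 1) → ℂ := fun z => Λ' fun j => y z j ^ m with hX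
  have hΛX : ∀ z, Λ (X z) = fun j => y z j ^ m := by
    intro z
    have h1 : Ψ (fun j => y z j ^ m) = 0 := by
      funext l
      rw [← hC, ← eval_diag]
      exact hyD z l
    obtain ⟨x, hx⟩ := (hker _).1 h1
    rw [hX]
    simp only
    rw [← hx]
    have h2 : Λ' (Λ x) = x := by
      have := LinearMap.congr_fun hΛ' x
      simpa using this
    rw [h2]
  have hXd : ∀ a, Differentiable ℂ fun z => X z a := by
    intro a
    have h1 : (fun z => X z a) = fun z => ∑ j, LinearMap.toMatrix' Λ' a j * y z j ^ m := by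
      funext z
      have := LinearMap.toMatrix'_mulVec Λ' (fun j => y z j ^ m)
      exact (congrFun this a).symm
    rw [h1]
    exact Differentiable.fun_sum fun j _ => ((hyj j).pow m).const_mul _
  have hprop := hPH X (fun j z => y z j) hXd hyj (fun j z => by
    have := congrFun (hΛX z) j
    rw [hΛ] at this
    exact this.symm)
  have hX0 : ∀ z, X z ≠ 0 := by
    intro z h0
    apply hy0 z
    funext j
    have := congrFun (hΛX z) j
    rw [h0, map_zero] at this
    exact pow_eq_zero_iff (by omega) |>.1 this.symm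
  have hc : ∀ z, ∃ c : ℂ, ∀ a, X z a = c * X 0 a := by
    intro z
    obtain ⟨b, hb⟩ := Function.ne_iff.1 (hX0 0)
    refine ⟨X z b / X 0 b, fun a => ?_⟩
    have h1 := hprop z 0 a b
    have hb' : X 0 b ≠ 0 := hb
    field_simp
    linear_combination h1
  choose c hc using hc
  have hpow : ∀ z j, y z j ^ m = c z * y 0 j ^ m := by
    intro z j
    have h1 := congrFun (hΛX z) j
    have h2 := congrFun (hΛX 0) j
    rw [hΛ] at h1 h2
    rw [← h1, ← h2, Finset.mul_sum]
    exact Finset.sum_congr rfl fun a _ => by rw [hc z a]; ring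
  obtain ⟨j0, hj0⟩ := Function.ne_iff.1 (hy0 0)
  have hj0' : y 0 j0 ≠ 0 := hj0
  have hnz : ∀ z, y z j0 ≠ 0 := by
    intro z h0
    have h1 := hpow z j0
    rw [h0, zero_pow (by omega)] at h1
    have h2 : c z = 0 := (mul_eq_zero.1 h1.symm).resolve_right (pow_ne_zero _ hj0')
    apply hX0 z
    funext a
    rw [hc z a, h2, zero_mul]
    rfl
  choose d hd using fun j => const_of_pow (hyj j) (hyj j0) (e := m) (by omega) hnz
    (c := y 0 j ^ m / y 0 j0 ^ m) (fun z => by
      rw [hpow z j, hpow z j0]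
      have := pow_ne_zero m hj0'
      field_simp)
  refine ⟨y z j0 / y w j0, ?_⟩
  funext j
  rw [Pi.smul_apply, smul_eq_mul, hd j z, hd j w]
  have := hnz w
  field_simp

/-- **Openness.** -/
theorem diag_open {r m Q : ℕ} (C : Matrix (Fin r) (Fin (Q + 1)) ℂ) (hB : Brody (diag m C)) :
    ∃ ε : ℝ, 0 < ε ∧ ∀ C' : Matrix (Fin r) (Fin (Q + 1)) ℂ, (∀ l j, ‖C' l j - C l j‖ < ε) →
      Brody (diag m C') := by
  obtain ⟨ε, hε, hopen⟩ := open_brody (fun l => ⟨m, hom_diag m C l⟩) hB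
  have hQ : (0 : ℝ) < Q + 1 := by positivity
  refine ⟨ε / (Q + 1), div_pos hε hQ, fun C' hC' => hopen _ (fun l => ⟨m, hom_diag m C' l⟩)
    fun l u hu => ?_⟩
  rw [eval_diag, eval_diag, ← Finset.sum_sub_distrib]
  have h1 : ∀ j ∈ (Finset.univ : Finset (Fin (Q + 1))),
      ‖C' l j * u j ^ m - C l j * u j ^ m‖ ≤ ε / (Q + 1) := by
    intro j _
    rw [← sub_mul, norm_mul, norm_pow]
    have h2 : ‖u j‖ ^ m ≤ 1 := pow_le_one₀ (norm_nonneg _) ((norm_le_pi_norm u j).trans hu)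
    calc ‖C' l j - C l j‖ * ‖u j‖ ^ m ≤ ε / (Q + 1) * 1 := by
          gcongr
          exact (hC' l j).le
      _ = _ := mul_one _
  refine (norm_sum_le _ _).trans ((Finset.sum_le_sum h1).trans ?_)
  rw [Finset.sum_const, Finset.card_univ, Fintype.card_fin, nsmul_eq_mul]
  push_cast
  field_simp
  exact le_refl _

/-- **Pull-back to a projective variety.** -/
theorem diag_pull {r m Q : ℕ} (C : Matrix (Fin r) (Fin (Q + 1)) ℂ) (hB : Brody (diag m C))
    (N : ℕ) (S : Set (MvPolynomial (Fin (N + 1)) ℂ)) (hS : ∀ p ∈ S, ∃ a, p.IsHomogeneous a)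
    (e : ℕ) (he : 1 ≤ e) (G : Fin (Q + 1) → MvPolynomial (Fin (N + 1)) ℂ)
    (hG : ∀ j, (G j).IsHomogeneous e)
    (hG0 : ∀ x, x ≠ 0 → (∀ p ∈ S, eval x p = 0) → ∃ j, eval x (G j) ≠ 0)
    (f : ℂ → (Fin (N + 1) → ℂ)) (hf : Differentiable ℂ f) (hf0 : ∀ z, f z ≠ 0)
    (hfS : ∀ z, ∀ p ∈ S, eval (f z) p = 0)
    (hfG : ∀ z l, eval (f z) (∑ j, MvPolynomial.C (C l j) * G j ^ m) = 0) (z w : ℂ) :
    ∃ c : ℂ, f w = c • f z := by
  have h1 : ∀ z, (fun j => eval (f z) (G j)) ≠ 0 := by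
    intro z h0
    obtain ⟨j, hj⟩ := hG0 (f z) (hf0 z) (hfS z)
    exact hj (congrFun h0 j)
  have h2 := hB (fun z j => eval (f z) (G j))
    (by rw [differentiable_pi]; exact fun j => diff_eval hf (G j)) h1 (fun z l => by
      rw [eval_diag]
      have h3 := hfG z l
      rw [map_sum] at h3
      rw [← h3]
      refine Finset.sum_congr rfl fun j _ => ?_
      rw [map_mul, eval_C, map_pow])
  exact const_of_image (N := N + 1) (d := e) (by omega) (S := S) (F := G) hS hG hG0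
    hf hf0 hfS (fun w => by
      obtain ⟨c, hc⟩ := h2 w 0
      exact ⟨c, fun i => congrFun hc i⟩) z w

end Pool.Agent.H20.DG
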