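import Pool.Graph.R_pool_sql_team_seeded_35f281b4.K7.H11.LM.Pen

/-! Polynomials with proportional jets at several points. -/

set_option autoImplicit false

namespace Pool.Agent.H20.DG

open Polynomial
open Pool.Agent.K7.H11.LM

/-- the core case -/
theorem jet_core {n : ℕ} {p q : ℂ[X]} (hp : p.natDegree ≤ n) (hp0 : p ≠ 0)
    (hq : q.natDegree ≤ p.natDegree) {ι : Type} [Fintype ι] (k : ι → ℕ)
    (hι : 2 * n ≤ ∑ i, k i + 1) {s : ι → ℂ} (hs : Function.Injective s)
    (h : ∀ i, (X - C (s i)) ^ k i ∣ p * derivative q - q * derivative p) :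
    ∃ c : ℂ, q = C c * p := by
  classical
  set m := p.natDegree with hm
  set c := q.coeff m / p.leadingCoeff with hc
  refine ⟨c, ?_⟩
  by_contra hne
  set q1 := q - C c * p with hq1
  have hq10 : q1 ≠ 0 := fun h0 => hne (sub_eq_zero.1 h0)
  have hlc : p.leadingCoeff ≠ 0 := leadingCoeff_ne_zero.2 hp0
  have hdeg : q1.natDegree ≤ m := by
    refine (natDegree_sub_le _ _).trans (max_le hq ((natDegree_C_mul_le _ _).trans le_rfl))
  have hcm : q1.coeff m = 0 := by
    rw [hq1, coeff_sub, coeff_C_mul, hc]
    change q.coeff m - q.coeff m / p.leadingCoeff * p.leadingCoeff = 0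
    rw [div_mul_cancel₀ _ hlc, sub_self]
  have hlt : q1.natDegree < m := by
    refine lt_of_le_of_ne hdeg fun he => hq10 ?_
    rw [← he] at hcm
    exact leadingCoeff_eq_zero.1 hcm
  set e := q1.natDegree with he
  set W := p * derivative q1 - q1 * derivative p with hW
  have hW0 : W = 0 := by
    have hle : (X * W).natDegree ≤ m + e := by
      have e1 : X * W = p * (X * derivative q1) - q1 * (X * derivative p) := by
        rw [hW]; ring
      rw [e1]
      refine (natDegree_sub_le _ _).trans (max_le ?_ ?_)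
      · exact natDegree_mul_le.trans (add_le_add le_rfl
          (natDegree_X_mul_derivative_le q1 le_rfl))
      · refine natDegree_mul_le.trans ?_
        have := natDegree_X_mul_derivative_le p (m := m) le_rfl
        omega
    by_contra hWne
    have h1 : (X * W).natDegree = W.natDegree + 1 := by
      rw [mul_comm]; exact natDegree_mul_X hWne
    have h2 : ∏ i, (X - C (s i)) ^ k i ∣ W := by
      refine Finset.prod_dvd_of_coprime ?_ fun i _ => ?_
      · intro i _ j _ hij
        exact (isCoprime_X_sub_C_of_isUnit_sub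
          (sub_ne_zero.2 (hs.ne hij)).isUnit).pow
      · have e1 : W = p * derivative q - q * derivative p := by
          rw [hW, hq1, derivative_sub, derivative_C_mul]
          ring
        rw [e1]
        exact h i
    have h3 := natDegree_le_of_dvd h2 hWne
    rw [natDegree_prod_of_monic _ _ (fun i _ => (monic_X_sub_C _).pow _)] at h3
    have h4 : ∑ i, ((X - C (s i)) ^ k i).natDegree = ∑ i, k i := by
      refine Finset.sum_congr rfl fun i _ => ?_
      rw [natDegree_pow, natDegree_X_sub_C, mul_one]
    rw [h4] at h3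
    omega
  have hcoef : (X * W).coeff (m + e) = 0 := by rw [hW0, mul_zero, coeff_zero]
  have e1 : X * W = p * (X * derivative q1) - (X * derivative p) * q1 := by
    rw [hW]; ring
  rw [e1, coeff_sub, coeff_mul_add_eq_of_natDegree_le (le_refl _)
    (natDegree_X_mul_derivative_le q1 le_rfl),
    coeff_mul_add_eq_of_natDegree_le (natDegree_X_mul_derivative_le p le_rfl) (le_refl _),
    coeff_X_mul_derivative, coeff_X_mul_derivative] at hcoef
  have h2 : p.coeff m * q1.coeff e * ((e : ℂ) - m) = 0 := by linear_combination hcoef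
  have h3 : p.coeff m ≠ 0 := hlc
  have h4 : q1.coeff e ≠ 0 := leadingCoeff_ne_zero.2 hq10
  have h5 : (e : ℂ) - m ≠ 0 := by
    intro h0
    have : (e : ℂ) = m := sub_eq_zero.1 h0
    have : e = m := by exact_mod_cast this
    omega
  exact mul_ne_zero (mul_ne_zero h3 h4) h5 h2

/-- Two polynomials of degree at most `n`, whose Wronskian vanishes at `2 n - 1` points counted with
multiplicities, are proportional. -/
theorem jet_pen {n : ℕ} {p q : ℂ[X]} (hp : p.natDegree ≤ n) (hq : q.natDegree ≤ n) (hp0 : p ≠ 0)
    {ι : Type} [Fintype ι] (k : ι → ℕ) (hι : 2 * n ≤ ∑ i, k i + 1)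
    {s : ι → ℂ} (hs : Function.Injective s)
    (h : ∀ i, (X - C (s i)) ^ k i ∣ p * derivative q - q * derivative p) :
    ∃ c : ℂ, q = C c * p := by
  rcases le_total q.natDegree p.natDegree with h1 | h1
  · exact jet_core hp hp0 h1 k hι hs h
  · by_cases hq0 : q = 0
    · exact ⟨0, by rw [hq0, C_0, zero_mul]⟩
    · obtain ⟨c, hc⟩ := jet_core hq hq0 h1 k hι hs fun i => by
        have h2 := (h i).neg_right
        rwa [neg_sub] at h2
      have hc0 : c ≠ 0 := by
        rintro rfl
        rw [C_0, zero_mul] at hc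
        exact hp0 hc
      refine ⟨c⁻¹, ?_⟩
      rw [hc, ← mul_assoc, ← C_mul, inv_mul_cancel₀ hc0, C_1, one_mul]

lemma dvd_of_taylor {p : ℂ[X]} {s : ℂ} {k : ℕ} (h : ∀ a, a < k → (taylor s p).coeff a = 0) :
    (X - C s) ^ k ∣ p := by
  rw [X_sub_C_pow_dvd_iff, X_pow_dvd_iff]
  intro a ha
  exact h a ha

/-- the Wronskian of polynomials with proportional jets -/
theorem jet_dvd {p q : ℂ[X]} {s : ℂ} {k : ℕ}
    (h : ∀ a b, a ≤ k → b ≤ k → (taylor s p).coeff a * (taylor s q).coeff b =
      (taylor s p).coeff b * (taylor s q).coeff a) :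
    (X - C s) ^ k ∣ p * derivative q - q * derivative p := by
  have hder : ∀ g : ℂ[X], (X - C s) ^ (k + 1) ∣ g → (X - C s) ^ k ∣ derivative g := by
    intro g hg
    have := pow_sub_one_dvd_derivative_of_pow_dvd hg
    rwa [Nat.add_sub_cancel] at this
  have hpow : ∀ g : ℂ[X], (X - C s) ^ (k + 1) ∣ g → (X - C s) ^ k ∣ g := fun g hg =>
    (pow_dvd_pow _ (Nat.le_succ k)).trans hg
  by_cases h0 : ∀ a, a ≤ k → (taylor s p).coeff a = 0
  · have h1 : (X - C s) ^ (k + 1) ∣ p := dvd_of_taylor fun a ha => h0 a (by omega)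
    exact dvd_sub ((hpow p h1).mul_right _) ((hder p h1).mul_left _)
  · push Not at h0
    obtain ⟨a, ha, hpa⟩ := h0
    set c := (taylor s q).coeff a / (taylor s p).coeff a with hc
    have h1 : (X - C s) ^ (k + 1) ∣ q - C c * p := by
      refine dvd_of_taylor fun b hb => ?_
      rw [map_sub, coeff_sub, taylor_mul, taylor_C, coeff_C_mul, hc]
      have h2 := h a b ha (by omega)
      field_simp
      linear_combination h2
    have h3 : p * derivative q - q * derivative p =
        p * derivative (q - C c * p) - (q - C c * p) * derivative p := by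
      rw [derivative_sub, derivative_C_mul]
      ring
    rw [h3]
    exact dvd_sub ((hder _ h1).mul_left _) ((hpow _ h1).mul_right _)

end Pool.Agent.H20.DG
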