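import Pool.Agent.H20.DG.Fin

/-! Composition of arrangements. -/

set_option autoImplicit false

namespace Pool.Agent.H20.DG

open MvPolynomial
open Pool.Agent.K7.H11.GG
open Pool.Agent.K7.H11.LM

/-- reindexing -/
lemma reindex {κ J J' : Type} [Fintype κ] {m : ℕ} {B : J → κ → ℂ} (e : J' ≃ J)
    (h1 : PH m B) (h2 : Inj B) : PH m (fun j => B (e j)) ∧ Inj (fun j => B (e j)) := by
  refine ⟨fun x y hx hy h z w => ?_, fun x hx => h2 x fun j => ?_⟩
  · refine h1 x (fun j => y (e.symm j)) hx (fun j => hy _) (fun j z => ?_) z w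
    have := h (e.symm j) z
    simp only [e.apply_symm_apply] at this
    exact this
  · have := hx (e.symm j)
    simp only [e.apply_symm_apply] at this
    exact this

lemma point_PH (m : ℕ) : PH (κ := Fin 1) (J := Unit) m (fun _ _ => 1) := by
  intro x y _ _ _ z w a b
  rw [Subsingleton.elim a b]

lemma point_inj : Inj (κ := Fin 1) (J := Unit) (fun _ _ => 1) := by
  intro x hx
  funext a
  have := hx ()
  simp only [Finset.univ_unique, Fin.default_eq_zero, Fin.isValue, one_mul,
    Finset.sum_singleton] at this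
  rw [Subsingleton.elim a 0, this]
  rfl

/-- **Composition of diagonal complete intersections.** -/
theorem compose (n r m b p t u : ℕ) (hm : 1 ≤ m) (hb : 3 ≤ b * (m - 1)) (k c : Fin p → ℕ)
    (A : (i : Fin p) → Matrix (Fin (c i)) (Fin (k i + c i + 1)) ℂ)
    (hA : ∀ i, LinearIndependent ℂ (A i)) (hyp : ∀ i, Brody (diag m (A i)))
    (hn : 2 * n ≤ ∑ i, k i + t + 1)
    (hr : n + r = ∑ i, (k i + c i + 1) + t * (b + 2) + u - 1)
    (hr0 : 1 ≤ ∑ i, (k i + c i + 1) + t * (b + 2) + u) :
    ∃ C : Matrix (Fin r) (Fin (n + r + 1)) ℂ, Brody (diag m C) := by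
  classical
  choose B1 hB1 hB1' using fun i => arr_of_diag (A i) (hA i) (hyp i)
  let K : Fin p ⊕ (Fin t ⊕ Fin u) → ℕ := Sum.elim k (Sum.elim (fun _ => 1) (fun _ => 0))
  let J : Fin p ⊕ (Fin t ⊕ Fin u) → Type := Sum.elim (fun i => Fin (k i + c i + 1))
    (Sum.elim (fun _ => Option (Option (Fin b))) (fun _ => Unit))
  let B : (i : Fin p ⊕ (Fin t ⊕ Fin u)) → J i → Fin (K i + 1) → ℂ := fun i =>
    match i with
    | Sum.inl i => B1 i
    | Sum.inr (Sum.inl _) => lineArr b m
    | Sum.inr (Sum.inr _) => fun _ _ => 1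
  have hBPH : ∀ i, PH m (B i) := by
    rintro (i | i | i)
    · exact hB1 i
    · exact line_PH b m hb
    · exact point_PH m
  have hBInj : ∀ i, Inj (B i) := by
    rintro (i | i | i)
    · exact hB1' i
    · exact line_inj b m
    · exact point_inj
  have hfin : ∀ i, Finite (J i) := by
    rintro (i | i | i)
    · exact inferInstanceAs (Finite (Fin (k i + c i + 1)))
    · exact inferInstanceAs (Finite (Option (Option (Fin b))))
    · exact inferInstanceAs (Finite Unit)
  have hcard : Nat.card (Σ i, J i) = ∑ i, (k i + c i + 1) + t * (b + 2) + u := by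
    rw [Nat.card_sigma, Fintype.sum_sum_type, Fintype.sum_sum_type]
    have h1 : ∀ i : Fin p, Nat.card (J (Sum.inl i)) = k i + c i + 1 := fun i => by
      change Nat.card (Fin (k i + c i + 1)) = _
      simp
    have h2 : ∀ i : Fin t, Nat.card (J (Sum.inr (Sum.inl i))) = b + 2 := fun i => by
      change Nat.card (Option (Option (Fin b))) = _
      simp
    have h3 : ∀ i : Fin u, Nat.card (J (Sum.inr (Sum.inr i))) = 1 := fun i => by
      change Nat.card Unit = _
      simp
    rw [Finset.sum_congr rfl fun i _ => h1 i, Finset.sum_congr rfl fun i _ => h2 i,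
      Finset.sum_congr rfl fun i _ => h3 i]
    simp only [Finset.sum_const, Finset.card_univ, Fintype.card_fin, smul_eq_mul, mul_one]
    ring
  have hK : 2 * n ≤ ∑ i, K i + 1 := by
    rw [Fintype.sum_sum_type, Fintype.sum_sum_type]
    simpa [K] using hn
  have : Finite (Σ i, J i) := inferInstance
  have hι : 0 < Fintype.card (Fin p ⊕ (Fin t ⊕ Fin u)) := by
    rw [Fintype.card_pos_iff]
    have h1 : Nonempty (Σ i, J i) := by
      rw [← Finite.card_pos_iff, hcard]
      omega
    exact ⟨h1.some.1⟩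
  let s : Fin p ⊕ (Fin t ⊕ Fin u) → ℂ := fun i =>
    ((Fintype.equivFin (Fin p ⊕ (Fin t ⊕ Fin u)) i : ℕ) : ℂ)
  have hs : Function.Injective s := by
    intro i j h
    have h1 : ((Fintype.equivFin (Fin p ⊕ (Fin t ⊕ Fin u)) i : ℕ) : ℂ) =
      ((Fintype.equivFin (Fin p ⊕ (Fin t ⊕ Fin u)) j : ℕ) : ℂ) := h
    have h2 : (Fintype.equivFin (Fin p ⊕ (Fin t ⊕ Fin u)) i : ℕ) =
      (Fintype.equivFin (Fin p ⊕ (Fin t ⊕ Fin u)) j : ℕ) := by exact_mod_cast h1
    exact (Fintype.equivFin _).injective (Fin.ext h2)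
  have e0 : Nat.card (Fin (n + r + 1)) = Nat.card (Σ i, J i) := by
    rw [hcard, Nat.card_fin]
    omega
  obtain ⟨e⟩ := Finite.card_eq.1 e0
  have h1 := reindex e (uni_PH (n := n) (k := K) hs hBPH hK) (uni_inj (k := K) hs hBInj hK hι)
  exact diag_of_arr hm (by omega) _ h1.1 h1.2

end Pool.Agent.H20.DG
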