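import Pool.Agent.H20.DG.Arr

/-! The union of arrangements, pulled back from the jets of polynomials at distinct points. -/

set_option autoImplicit false

namespace Pool.Agent.H20.DG

open Polynomial

/-- the polynomial with the coefficients `x` -/
noncomputable def pl {n : ℕ} (x : Fin (n + 1) → ℂ) : ℂ[X] := ∑ e, C (x e) * X ^ (e : ℕ)

lemma pl_coeff {n : ℕ} (x : Fin (n + 1) → ℂ) (e : Fin (n + 1)) : (pl x).coeff e = x e := by
  unfold pl
  rw [finsetSum_coeff, Finset.sum_eq_single e]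
  · rw [coeff_C_mul, coeff_X_pow, if_pos rfl, mul_one]
  · intro b _ hb
    rw [coeff_C_mul, coeff_X_pow, if_neg, mul_zero]
    exact fun h => hb (Fin.ext h.symm)
  · intro h
    exact absurd (Finset.mem_univ e) h

lemma pl_natDegree {n : ℕ} (x : Fin (n + 1) → ℂ) : (pl x).natDegree ≤ n := by
  unfold pl
  refine natDegree_sum_le_of_forall_le _ _ fun e _ => ?_
  exact (natDegree_C_mul_X_pow_le _ _).trans (by omega)

/-- the coefficients of the Taylor expansion at `s` -/
noncomputable def jc (n : ℕ) (s : ℂ) (a : ℕ) (e : Fin (n + 1)) : ℂ :=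
  (taylor s (X ^ (e : ℕ) : ℂ[X])).coeff a

lemma taylor_pl {n : ℕ} (x : Fin (n + 1) → ℂ) (s : ℂ) (a : ℕ) :
    (taylor s (pl x)).coeff a = ∑ e, jc n s a e * x e := by
  unfold pl jc
  rw [map_sum, finsetSum_coeff]
  refine Finset.sum_congr rfl fun e _ => ?_
  rw [taylor_mul, taylor_C, coeff_C_mul, mul_comm]

section Union

variable {ι : Type} [Fintype ι] {J : ι → Type} (k : ι → ℕ) (B : (i : ι) → J i → Fin (k i + 1) → ℂ)
  (s : ι → ℂ) (n : ℕ)

/-- the union of the arrangements -/
noncomputable def uni (p : Σ i, J i) (e : Fin (n + 1)) : ℂ :=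
  ∑ a, B p.1 p.2 a * jc n (s p.1) a e

omit [Fintype ι] in
lemma uni_sum (p : Σ i, J i) (x : Fin (n + 1) → ℂ) :
    ∑ e, uni k B s n p e * x e = ∑ a, B p.1 p.2 a * (taylor (s p.1) (pl x)).coeff (a : ℕ) := by
  unfold uni
  have h1 : ∀ a : Fin (k p.1 + 1), B p.1 p.2 a * (taylor (s p.1) (pl x)).coeff (a : ℕ) =
      ∑ e, B p.1 p.2 a * jc n (s p.1) a e * x e := by
    intro a
    rw [taylor_pl, Finset.mul_sum]
    exact Finset.sum_congr rfl fun e _ => by ring
  rw [Finset.sum_congr rfl fun a _ => h1 a, Finset.sum_comm]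
  refine Finset.sum_congr rfl fun e _ => ?_
  rw [Finset.sum_mul]

variable {k B s n}

theorem uni_inj (hs : Function.Injective s) (hB : ∀ i, Inj (B i)) (hk : 2 * n ≤ ∑ i, k i + 1)
    (hι : 0 < Fintype.card ι) : Inj (uni k B s n) := by
  intro x hx
  have h1 : ∀ i, ∀ a : Fin (k i + 1), (taylor (s i) (pl x)).coeff (a : ℕ) = 0 := by
    intro i a
    have h2 := hB i (fun a => (taylor (s i) (pl x)).coeff (a : ℕ)) (fun j => by
      have h3 := hx ⟨i, j⟩
      rwa [uni_sum] at h3)
    exact congrFun h2 a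
  have h2 : ∀ i, (X - C (s i)) ^ (k i + 1) ∣ pl x := fun i =>
    dvd_of_taylor fun a ha => h1 i ⟨a, ha⟩
  have h3 : ∏ i, (X - C (s i)) ^ (k i + 1) ∣ pl x := by
    refine Finset.prod_dvd_of_coprime ?_ fun i _ => h2 i
    intro i _ j _ hij
    exact (isCoprime_X_sub_C_of_isUnit_sub (sub_ne_zero.2 (hs.ne hij)).isUnit).pow
  have h4 : pl x = 0 := by
    by_contra h0
    have h5 := natDegree_le_of_dvd h3 h0
    rw [natDegree_prod_of_monic _ _ (fun i _ => (monic_X_sub_C _).pow _)] at h5
    have h6 : ∑ i, ((X - C (s i)) ^ (k i + 1)).natDegree = ∑ i, k i + Fintype.card ι := by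
      rw [Finset.sum_congr rfl fun i _ => by rw [natDegree_pow, natDegree_X_sub_C, mul_one],
        Finset.sum_add_distrib]
      simp
    rw [h6] at h5
    have h7 := pl_natDegree x
    omega
  funext e
  rw [← pl_coeff x e, h4]
  simp

theorem uni_PH {m : ℕ} (hs : Function.Injective s) (hB : ∀ i, PH m (B i))
    (hk : 2 * n ≤ ∑ i, k i + 1) : PH m (uni k B s n) := by
  intro x y hx hy h z w
  by_cases h0 : pl (x z) = 0
  · have h1 : ∀ a, x z a = 0 := fun a => by rw [← pl_coeff (x z) a, h0]; simp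
    intro a b
    rw [h1, h1, zero_mul, zero_mul]
  have hdvd : ∀ i, (X - C (s i)) ^ k i ∣
      pl (x z) * derivative (pl (x w)) - pl (x w) * derivative (pl (x z)) := by
    intro i
    refine jet_dvd fun a b ha hb => ?_
    have h1 := hB i (fun z a => (taylor (s i) (pl (x z))).coeff (a : ℕ))
      (fun j => y ⟨i, j⟩) (fun a => by
        have : (fun z => (taylor (s i) (pl (x z))).coeff (a : ℕ)) =
            fun z => ∑ e, jc n (s i) a e * x z e := funext fun z => taylor_pl _ _ _
        rw [this]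
        exact Differentiable.fun_sum fun e _ => (hx e).const_mul _)
      (fun j => hy _) (fun j z => by rw [h, uni_sum]) z w ⟨a, by omega⟩ ⟨b, by omega⟩
    exact h1
  obtain ⟨c, hc⟩ := jet_pen (pl_natDegree (x z)) (pl_natDegree (x w)) h0 k hk hs hdvd
  have h2 : ∀ a, x w a = c * x z a := by
    intro a
    rw [← pl_coeff (x w) a, hc, coeff_C_mul, pl_coeff]
  intro a b
  rw [h2, h2]
  ring

end Union

end Pool.Agent.H20.DG
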